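import Pool.Agent.H176Z.Main

set_option autoImplicit false

open Pool.Agent.H176Z

/-- For an alternating word `Q` in a finite Coxeter system with non-empty subword complex, the
weak order interval `[e, ω]` is a lattice and the subword complex equivalence is a lattice
congruence of it. -/
theorem Pool.Agent.Results.MP_170371_co.AltCongruence.result
    {B W : Type*} [Fintype B] [DecidableEq B] [Group W] [Finite W] {M : CoxeterMatrix B}
    (cs : CoxeterSystem M W) {m : ℕ} (Q : Fin m → B) (ω : W) (hA : Alternating cs Q)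
    (hne : ∃ I, IsFacet cs Q ω I) :
    ∃ L : Lattice {x // WeakLE cs x ω}, (∀ x y, L.le x y ↔ WeakLE cs x.1 y.1) ∧
      ∃ c : @LatticeCon _ L, ∀ x y, c.r x y ↔ SCEquiv cs Q ω x.1 y.1 := by
  obtain ⟨L, hL⟩ := exists_lattice cs ω
  exact ⟨L, hL, exists_con hL hA hne⟩
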